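import Pool.Agent.H.MP_c0ccbe_al.Limit

set_option autoImplicit false

namespace Pool.Agent.Results.MP_c0ccbe_al.Disproof

open Pool.Agent.Hc0ccbe MulAction Finset
open scoped Pointwise

/-- A 4-transitive group on a countably infinite set which is not 3-set primitive and has a block
of imprimitivity on the 3-subsets that is not a partition. -/
theorem result : ∃ G : Subgroup (Equiv.Perm ℕ), IsMultiplyPretransitive G ℕ 4 ∧
    ¬ IsPreprimitive G (Set.powersetCard ℕ 3) ∧
    ∃ S : Set (Set.powersetCard ℕ 3), IsBlock G S ∧ S.Nontrivial ∧ S ≠ Set.univ ∧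
      ¬ ∀ x : ℕ, ∃! T : Set.powersetCard ℕ 3, T ∈ S ∧ x ∈ T := by
  obtain ⟨Ed, h1, h2, hu, hg⟩ := exists_limit
  let G : Subgroup (Equiv.Perm ℕ) :=
    { carrier := {g | ∃ h : PV, (∀ e, e ∈ Ed ↔ h • e ∈ Ed) ∧ ∀ n, h (false, n) = (false, g n)}
      mul_mem' := by
        rintro g g' ⟨h, a, b⟩ ⟨h', a', b'⟩
        exact ⟨h * h', fun e => by rw [mul_smul, ← a, ← a'], fun n => by
          rw [Equiv.Perm.mul_apply, b', b]; rfl⟩
      one_mem' := ⟨1, fun e => by rw [one_smul], fun _ => rfl⟩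
      inv_mem' := by
        rintro g ⟨h, a, b⟩
        exact ⟨h⁻¹, fun e => by rw [a (h⁻¹ • e), smul_inv_smul], fun n => by
          rw [Equiv.Perm.inv_eq_iff_eq, b]; simp⟩ }
  let S : Set (Set.powersetCard ℕ 3) := {T | insert (true, 0) (T.1.map pts) ∈ Ed}
  have hnot : ∀ (T : Finset ℕ) (k : ℕ), (true, k) ∉ T.map pts := by
    intro T k h
    obtain ⟨n, -, e⟩ := mem_map.1 h
    simp [pts] at e
  have hS : IsBlock G S := by
    rw [isBlock_iff_smul_eq_of_mem]
    rintro ⟨g, h, a, b⟩ T hT hgT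
    have key : ∀ U : Finset ℕ, h • U.map pts = (g • U).map pts := by
      intro U
      ext v
      simp only [mem_smul_finset, mem_map]
      constructor
      · rintro ⟨_, ⟨n, hn, rfl⟩, rfl⟩
        exact ⟨_, ⟨n, hn, rfl⟩, (b n).symm⟩
      · rintro ⟨_, ⟨n, hn, rfl⟩, rfl⟩
        exact ⟨_, ⟨n, hn, rfl⟩, b n⟩
    have e0 : h • ((true, 0) : V) = (true, 0) := by
      have h3 := (a _).1 hT
      rw [smul_finset_insert, key] at h3
      refine hu _ _ _ ?_ (hnot _ _) h3 hgT
      rw [← key, smul_mem_smul_finset_iff]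
      exact hnot _ _
    ext U
    rw [Set.mem_smul_set_iff_inv_smul_mem]
    refine (a _).trans ?_
    rw [smul_finset_insert, key, e0]
    have : g • ((⟨g, h, a, b⟩ : G)⁻¹ • U).1 = U.1 := smul_inv_smul g U.1
    rw [this]
    rfl
  let T1 : Set.powersetCard ℕ 3 := ⟨{0, 1, 2}, Set.powersetCard.mem_iff.2 (by decide)⟩
  let T2 : Set.powersetCard ℕ 3 := ⟨{0, 3, 4}, Set.powersetCard.mem_iff.2 (by decide)⟩
  let T3 : Set.powersetCard ℕ 3 := ⟨{0, 1, 3}, Set.powersetCard.mem_iff.2 (by decide)⟩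
  have m1 : T1 ∈ S := h1
  have m2 : T2 ∈ S := h2
  have ne : T1 ≠ T2 := fun h => absurd (congrArg Subtype.val h : ({0, 1, 2} : Finset ℕ) = {0, 3, 4}) (by decide)
  have m3 : T3 ∉ S := by
    intro h
    have h3 : (insert (true, 0) (T3.1.map pts) : Finset V) =
      insert (false, 3) {(true, 0), (false, 0), (false, 1)} := by decide
    have h4 : e1 = insert (false, 2) {(true, 0), (false, 0), (false, 1)} := by decide
    have h5 : insert (true, 0) (T3.1.map pts) ∈ Ed := h
    rw [h3] at h5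
    rw [h4] at h1
    have := hu _ (false, 3) (false, 2) (by decide) (by decide) h5 h1
    simp at this
  have nu : S ≠ Set.univ := fun h => m3 (h ▸ Set.mem_univ _)
  refine ⟨G, isMultiplyPretransitive_iff.2 fun a b => ?_, fun hp => ?_, S, hS, ⟨_, m1, _, m2, ne⟩,
    nu, fun h => ne ((h 0).unique ⟨m1, (by decide : 0 ∈ ({0, 1, 2} : Finset ℕ))⟩
      ⟨m2, (by decide : 0 ∈ ({0, 3, 4} : Finset ℕ))⟩)⟩
  · obtain ⟨h, hs, he, hab⟩ := hg a b
    have e1 : ∀ (h : PV), Sorted h → ∀ n, h (false, n) = (false, (h (false, n)).2) :=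
      fun h hs n => Prod.ext (hs _) rfl
    let g : Equiv.Perm ℕ := ⟨fun n => (h (false, n)).2, fun n => (h⁻¹ (false, n)).2,
      fun n => by simp only [← e1 h hs]; simp, fun n => by simp only [← e1 h⁻¹ hs.inv]; simp⟩
    refine ⟨⟨g, h, he, e1 h hs⟩, Function.Embedding.ext fun j => ?_⟩
    exact congrArg Prod.snd (hab j)
  · rcases hp.isTrivialBlock_of_isBlock hS with h | h
    · exact ne (h m1 m2)
    · exact nu h

end Pool.Agent.Results.MP_c0ccbe_al.Disproof
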